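import Pool.Agent.U479.FJ.Num

set_option autoImplicit false

/-! Freeness of the adjoint bundles of weighted complete intersections. -/

namespace Pool.Agent.U479.FJ

open Finset MvPolynomial

variable {V κ : Type} [Fintype V] [DecidableEq V] [Fintype κ] [DecidableEq κ] {F : Type} [Field F]

/-- monomials of degree `e` in the coordinates which do not vanish at `x` -/
def HasMon (a : V → ℕ) (x : V → F) (e : ℕ) : Prop :=
  ∃ y : V → ℕ, (∀ i, y i ≠ 0 → x i ≠ 0) ∧ ∑ i, y i * a i = e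

theorem hasMon_single {a : V → ℕ} {x : V → F} {i : V} (hi : a i = 1) (hx : x i ≠ 0) (e : ℕ) :
    HasMon a x e := by
  refine ⟨fun l => if l = i then e else 0, fun l hl => ?_, ?_⟩
  · by_cases h : l = i
    · rw [h]; exact hx
    · simp [h] at hl
  · simp [hi]

theorem hasMon_pair {a : V → ℕ} (ha : ∀ i, 1 ≤ a i)
    (hcop : Pairwise fun i j => Nat.Coprime (a i) (a j)) {x : V → F} {i l : V} (hil : i ≠ l)
    (hi : x i ≠ 0) (hl : x l ≠ 0) {e : ℕ} (he : ((a i : ℤ) - 1) * ((a l : ℤ) - 1) ≤ e) :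
    HasMon a x e := by
  have h1 : (a i - 1) * (a l - 1) ≤ e := by
    have h2 : (((a i - 1) * (a l - 1) : ℕ) : ℤ) = ((a i : ℤ) - 1) * ((a l : ℤ) - 1) := by
      rw [Nat.cast_mul, Nat.cast_sub (ha i), Nat.cast_sub (ha l)]; simp
    rw [← h2] at he
    exact_mod_cast he
  obtain ⟨u, v, huv⟩ := pair_mem (ha i) (ha l) (hcop hil) h1
  refine ⟨fun t => if t = i then u else if t = l then v else 0, fun t ht => ?_, ?_⟩
  · by_cases h : t = i
    · rw [h]; exact hi
    · by_cases h' : t = l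
      · rw [h']; exact hl
      · simp [h, h'] at ht
  · rw [← huv, ← add_sum_erase univ _ (mem_univ i), ← add_sum_erase (univ.erase i) _
      (mem_erase.2 ⟨Ne.symm hil, mem_univ l⟩)]
    have h3 : ∑ t ∈ (univ.erase i).erase l, (if t = i then u else if t = l then v else 0) * a t = 0 := by
      refine sum_eq_zero fun t ht => ?_
      rw [mem_erase, mem_erase] at ht
      simp [ht.1, ht.2.1]
    rw [h3]
    simp [Ne.symm hil]

theorem core (a : V → ℕ) (ha : ∀ i, 1 ≤ a i) (hcop : Pairwise fun i j => Nat.Coprime (a i) (a j))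
    (d : κ → ℕ) (f : κ → MvPolynomial V F) (hd : ∀ j, 1 ≤ d j)
    (hf : ∀ j, IsWeightedHomogeneous a (f j) (d j))
    (hX : ∀ i, 1 < a i → ∃ j, eval (Pi.single i 1) (f j) ≠ 0)
    (n : ℕ) (hn : n + Fintype.card κ + 1 = Fintype.card V) (K : ℕ) (hK : n + 1 ≤ K) :
    ∑ i, a i ≤ ∑ j, d j + K ∧
    ∀ x : V → F, x ≠ 0 → (∀ j, eval x (f j) = 0) →
      HasMon a x (∑ j, d j + K - ∑ i, a i) := by
  classical
  by_cases hall : ∀ i, a i = 1
  · refine ⟨?_, fun x hx _ => ?_⟩
    · have h1 : ∑ i, a i = Fintype.card V := by simp [hall]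
      have h2 : Fintype.card κ ≤ ∑ j, d j := by
        have := card_nsmul_le_sum univ d 1 fun j _ => hd j
        simpa using this
      omega
    · obtain ⟨i, hi⟩ := Function.ne_iff.1 hx
      exact hasMon_single (hall i) hi _
  push Not at hall
  obtain ⟨i₀, hi₀⟩ := hall
  obtain ⟨j₀, -⟩ := hX i₀ (by have := ha i₀; omega)
  have hJex : ∀ i, ∃ j, 1 < a i → eval (Pi.single i 1) (f j) ≠ 0 := by
    intro i
    by_cases h : 1 < a i
    · obtain ⟨j, hj⟩ := hX i h
      exact ⟨j, fun _ => hj⟩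
    · exact ⟨j₀, fun h' => absurd h' h⟩
  choose J hJ1 using hJex
  have hJ : ∀ i, a i ∣ d (J i) := by
    intro i
    by_cases h : 1 < a i
    · obtain ⟨D, hD, -⟩ := coord (hf (J i)) (hJ1 i h)
      exact ⟨D, by rw [← hD, mul_comm]⟩
    · have : a i = 1 := by have := ha i; omega
      rw [this]; exact one_dvd _
  have hBn := B_nonneg (a := a) (d := d) (J := J) ha hcop hd hJ
  have hsum := sum_B (a := a) (d := d) (J := J)
  have hsub : ∀ P : Finset κ, ∑ j ∈ P, B a d J j ≤ ∑ j, B a d J j := fun P =>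
    sum_le_sum_of_subset_of_nonneg (subset_univ P) fun j _ _ => hBn j
  have hB0 : 0 ≤ ∑ j, B a d J j := sum_nonneg fun j _ => hBn j
  have hnZ : (n : ℤ) + Fintype.card κ + 1 = Fintype.card V := by exact_mod_cast hn
  have hle : ∑ i, a i ≤ ∑ j, d j + K := by
    have h1 : ((∑ i, a i : ℕ) : ℤ) ≤ ((∑ j, d j + K : ℕ) : ℤ) := by
      push_cast
      have : (n : ℤ) + 1 ≤ K := by exact_mod_cast hK
      linarith
    exact_mod_cast h1
  refine ⟨hle, fun x hx hfx => ?_⟩
  obtain ⟨e, he⟩ : ∃ e, e = ∑ j, d j + K - ∑ i, a i := ⟨_, rfl⟩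
  rw [← he]
  have heB : ∑ j, B a d J j ≤ (e : ℤ) := by
    have h1 : (e : ℤ) + ∑ i, (a i : ℤ) = ∑ j, (d j : ℤ) + K := by
      have : e + ∑ i, a i = ∑ j, d j + K := by omega
      exact_mod_cast this
    have : (n : ℤ) + 1 ≤ K := by exact_mod_cast hK
    linarith
  obtain ⟨i₁, hi₁⟩ := Function.ne_iff.1 hx
  by_cases hone : ∃ i, x i ≠ 0 ∧ a i = 1
  · obtain ⟨i, hi, hai⟩ := hone
    exact hasMon_single hai hi e
  push Not at hone
  have hbig : ∀ i, x i ≠ 0 → 1 < a i := fun i hi => by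
    have h1 := ha i
    have h2 := hone i hi
    omega
  by_cases hinj : ∃ i l, x i ≠ 0 ∧ x l ≠ 0 ∧ i ≠ l ∧ J i = J l
  · obtain ⟨i, l, hi, hl, hil, hJil⟩ := hinj
    refine hasMon_pair ha hcop hil hi hl ?_
    refine (B_pair ha hcop hd hJ hil hJil).trans (le_trans ?_ heB)
    have := hsub {J i}
    rwa [sum_singleton] at this
  push Not at hinj
  -- the relations
  have hrelex : ∀ i, ∃ (D : ℕ) (m : V →₀ ℕ), x i ≠ 0 → D * a i = d (J i) ∧
      coeff m (f (J i)) ≠ 0 ∧ m ≠ Finsupp.single i D ∧ ∀ l, m l ≠ 0 → x l ≠ 0 := by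
    intro i
    by_cases hi : x i ≠ 0
    · obtain ⟨D, hD, hc⟩ := coord (hf (J i)) (hJ1 i (hbig i hi))
      obtain ⟨m, h1, h2, h3⟩ := other (hfx (J i)) hc hi
      exact ⟨D, m, fun _ => ⟨hD, h1, h2, h3⟩⟩
    · exact ⟨0, 0, fun h => absurd h hi⟩
  choose D m hDm using hrelex
  obtain ⟨S, hS⟩ : ∃ S : Finset V, S = univ.filter fun i => x i ≠ 0 := ⟨_, rfl⟩
  have hmemS : ∀ i, i ∈ S ↔ x i ≠ 0 := fun i => by rw [hS, mem_filter]; simp
  obtain ⟨r, hr⟩ : ∃ r : V → V → ℕ, r = fun i l => if x i ≠ 0 ∧ l ≠ i then m i l else 0 :=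
    ⟨_, rfl⟩
  obtain ⟨c, hc⟩ : ∃ c : V → ℕ, c = fun i => D i - m i i := ⟨_, rfl⟩
  have hri : ∀ i l, x i ≠ 0 → l ≠ i → r i l = m i l := fun i l h1 h2 => by
    rw [hr]; exact if_pos ⟨h1, h2⟩
  have hrii : ∀ i, r i i = 0 := fun i => by rw [hr]; exact if_neg fun h => h.2 rfl
  have hrx : ∀ i l, x i ≠ 0 → r i l ≠ 0 → x l ≠ 0 := by
    intro i l hi hrl
    have hli : l ≠ i := fun h => hrl (by rw [h]; exact hrii i)
    rw [hri i l hi hli] at hrl
    exact (hDm i hi).2.2.2 l hrl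
  have hSc : Closed r S := fun i hi l hrl => (hmemS l).2 (hrx i l ((hmemS i).1 hi) hrl)
  obtain ⟨T, hTS, hTne, hTc, hTmin⟩ := exists_minimal_closed r S ⟨i₁, (hmemS i₁).2 hi₁⟩ hSc
  have hTx : ∀ i ∈ T, x i ≠ 0 := fun i hi => (hmemS i).1 (hTS hi)
  -- sums over everything
  have hwt : ∀ i, x i ≠ 0 → m i i * a i + ∑ l ∈ univ.erase i, m i l * a l = D i * a i := by
    intro i hi
    obtain ⟨h1, h2, -, -⟩ := hDm i hi
    rw [h1, ← hf (J i) h2, weight_eq]
    exact add_sum_erase univ (fun l => m i l * a l) (mem_univ i)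
  have hmD : ∀ i, x i ≠ 0 → m i i < D i := by
    intro i hi
    have h1 := hwt i hi
    have h2 : m i i * a i ≤ D i * a i := by omega
    have h3 : m i i ≤ D i := Nat.le_of_mul_le_mul_right h2 (by have := ha i; omega)
    refine lt_of_le_of_ne h3 fun h4 => ?_
    apply (hDm i hi).2.2.1
    rw [h4] at h1
    have h5 : ∑ l ∈ univ.erase i, m i l * a l = 0 := by omega
    ext l
    by_cases hl : l = i
    · subst hl
      rw [Finsupp.single_eq_same, h4]
    · rw [Finsupp.single_apply, if_neg (Ne.symm hl)]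
      have h6 := (sum_eq_zero_iff.1 h5) l (mem_erase.2 ⟨hl, mem_univ l⟩)
      rcases Nat.mul_eq_zero.1 h6 with h7 | h7
      · exact h7
      · have := ha l; omega
  have hc1 : ∀ i ∈ T, 1 ≤ c i := fun i hi => by
    have := hmD i (hTx i hi)
    rw [hc]
    show 1 ≤ D i - m i i
    omega
  have hcD : ∀ i ∈ T, c i ≤ D i := fun i _ => by
    rw [hc]; exact Nat.sub_le _ _
  have hrelT : ∀ i ∈ T, c i * a i = ∑ l ∈ T, r i l * a l := by
    intro i hi
    have hxi := hTx i hi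
    have h1 := hwt i hxi
    have h2 : ∑ l ∈ T, r i l * a l = ∑ l, r i l * a l := by
      refine sum_subset (subset_univ T) fun l _ hl => ?_
      have : r i l = 0 := by
        by_contra h
        exact hl (hTc i hi l h)
      rw [this, zero_mul]
    have h3 : ∑ l, r i l * a l = ∑ l ∈ univ.erase i, m i l * a l := by
      rw [← add_sum_erase univ _ (mem_univ i), hrii i, zero_mul, zero_add]
      exact sum_congr rfl fun l hl => by rw [hri i l hxi (mem_erase.1 hl).1]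
    rw [h2, h3]
    have h4 : c i * a i = D i * a i - m i i * a i := by
      rw [hc]; exact Nat.sub_mul _ _ _
    rw [h4]
    omega
  -- a second element
  have hsecond : ∀ i ∈ T, ∃ l ∈ T, l ≠ i := by
    intro i hi
    have h1 := hrelT i hi
    have h2 : 0 < c i * a i := Nat.mul_pos (hc1 i hi) (ha i)
    rw [h1] at h2
    obtain ⟨l, hl, hl'⟩ := exists_ne_zero_of_sum_ne_zero (Nat.pos_iff_ne_zero.1 h2)
    refine ⟨l, hl, fun h => hl' ?_⟩
    rw [h, hrii i, zero_mul]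
  have hT2 : 2 ≤ T.card := by
    obtain ⟨i, hi⟩ := hTne
    obtain ⟨l, hl, hli⟩ := hsecond i hi
    exact one_lt_card.2 ⟨i, hi, l, hl, Ne.symm hli⟩
  have hJT : ∑ i ∈ T, B a d J (J i) ≤ (e : ℤ) := by
    have h1 : ∑ i ∈ T, B a d J (J i) = ∑ j ∈ T.image J, B a d J j := by
      rw [sum_image]
      intro i hi l hl h
      by_contra hil
      exact hinj i l (hTx i hi) (hTx l hl) hil h
    rw [h1]
    exact (hsub _).trans heB
  rcases caseD ha hcop hd hJ T hT2 D c (fun i hi => (hDm i (hTx i hi)).1) hc1 hcD e hJT with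
    ⟨p, hp, q, hq, hpq, h⟩ | ⟨b, hb, h⟩
  · exact hasMon_pair ha hcop hpq (hTx p hp) (hTx q hq) h
  · obtain ⟨l, hl, hlb⟩ := hsecond b hb
    have h1 : ∑ i ∈ T.erase b, (c i - 1) * a i < e + a b := by
      have h2 : ((∑ i ∈ T.erase b, (c i - 1) * a i : ℕ) : ℤ) =
          ∑ i ∈ T.erase b, ((c i : ℤ) - 1) * a i := by
        rw [Nat.cast_sum]
        refine sum_congr rfl fun i hi => ?_
        rw [Nat.cast_mul, Nat.cast_sub (hc1 i (mem_erase.1 hi).2)]
        simp
      rw [← h2] at h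
      exact_mod_cast h
    obtain ⟨y, hy0, hy⟩ := mem_semigroup a c r T ha hTmin hTc hrelT hrii hb hl hlb (hcop hlb)
      hc1 e h1
    refine ⟨y, fun i hi => hTx i ?_, ?_⟩
    · by_contra h3
      exact hi (hy0 i h3)
    · rw [← hy]
      refine (sum_subset (subset_univ T) fun i _ hi => ?_).symm
      rw [hy0 i hi, zero_mul]

end Pool.Agent.U479.FJ
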