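import Pool.Agent.U479.FJ.Prep

set_option autoImplicit false

/-! The numerical part. -/

namespace Pool.Agent.U479.FJ

open Finset

variable {V κ : Type} [Fintype V] [DecidableEq V] [Fintype κ] [DecidableEq κ]

/-- the indices assigned to `j` -/
def G (J : V → κ) (j : κ) : Finset V := univ.filter fun i => J i = j

/-- the contribution of the equation `j` -/
def B (a : V → ℕ) (d : κ → ℕ) (J : V → κ) (j : κ) : ℤ :=
  (d j : ℤ) - 1 - ∑ i ∈ G J j, ((a i : ℤ) - 1)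

theorem prod_geZ {a : V → ℕ} (ha : ∀ i, 1 ≤ a i) (s : Finset V) :
    (1 : ℤ) + ∑ i ∈ s, ((a i : ℤ) - 1) ≤ ((∏ i ∈ s, a i : ℕ) : ℤ) := by
  have h := prod_ge ha s
  have h1 : ((∑ i ∈ s, (a i - 1) : ℕ) : ℤ) = ∑ i ∈ s, ((a i : ℤ) - 1) := by
    push_cast
    exact sum_congr rfl fun i _ => by rw [Nat.cast_sub (ha i)]; simp
  rw [← h1]
  exact_mod_cast h

variable {a : V → ℕ} {d : κ → ℕ} {J : V → κ}

theorem B_ge (ha : ∀ i, 1 ≤ a i) (hcop : Pairwise fun i j => Nat.Coprime (a i) (a j))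
    (hd : ∀ j, 1 ≤ d j) (hJ : ∀ i, a i ∣ d (J i)) {j : κ} {U : Finset V} (hU : U ⊆ G J j) :
    ((∏ i ∈ U, a i : ℕ) : ℤ) - 1 - ∑ i ∈ U, ((a i : ℤ) - 1) ≤ B a d J j := by
  have h1 : ∏ i ∈ G J j, a i ∣ d j := prod_dvd hcop _ fun i hi => by
    rw [G, mem_filter] at hi
    rw [← hi.2]
    exact hJ i
  have h2 : ∏ i ∈ G J j, a i ≤ d j := Nat.le_of_dvd (hd j) h1
  rw [← prod_sdiff hU] at h2
  have h3 := prod_geZ ha (G J j \ U)
  have h4 := prod_geZ ha U
  have h5 : ∑ i ∈ G J j, ((a i : ℤ) - 1) = ∑ i ∈ G J j \ U, ((a i : ℤ) - 1) +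
      ∑ i ∈ U, ((a i : ℤ) - 1) := (sum_sdiff hU).symm
  have h6 : 0 ≤ ∑ i ∈ G J j \ U, ((a i : ℤ) - 1) :=
    sum_nonneg fun i _ => by have := ha i; omega
  have h7 : 0 ≤ ∑ i ∈ U, ((a i : ℤ) - 1) := sum_nonneg fun i _ => by have := ha i; omega
  have h8 : ((∏ i ∈ G J j \ U, a i : ℕ) : ℤ) * ((∏ i ∈ U, a i : ℕ) : ℤ) ≤ d j := by
    exact_mod_cast h2
  unfold B
  rw [h5]
  nlinarith

theorem B_nonneg (ha : ∀ i, 1 ≤ a i) (hcop : Pairwise fun i j => Nat.Coprime (a i) (a j))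
    (hd : ∀ j, 1 ≤ d j) (hJ : ∀ i, a i ∣ d (J i)) (j : κ) : 0 ≤ B a d J j := by
  have := B_ge ha hcop hd hJ (empty_subset (G J j))
  simpa using this

theorem B_pair (ha : ∀ i, 1 ≤ a i) (hcop : Pairwise fun i j => Nat.Coprime (a i) (a j))
    (hd : ∀ j, 1 ≤ d j) (hJ : ∀ i, a i ∣ d (J i)) {i l : V} (hil : i ≠ l) (h : J i = J l) :
    ((a i : ℤ) - 1) * ((a l : ℤ) - 1) ≤ B a d J (J i) := by
  have := B_ge ha hcop hd hJ (U := {i, l}) (j := J i) (by
    intro x hx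
    rw [mem_insert, mem_singleton] at hx
    rw [G, mem_filter]
    rcases hx with rfl | rfl
    · exact ⟨mem_univ _, rfl⟩
    · exact ⟨mem_univ _, h.symm⟩)
  rw [prod_pair hil, sum_pair hil] at this
  push_cast at this
  linarith

theorem sum_B : ∑ j, B a d J j = ∑ j, (d j : ℤ) - Fintype.card κ - ∑ i, (a i : ℤ) +
    Fintype.card V := by
  unfold B G
  rw [sum_sub_distrib, sum_sub_distrib, sum_fiberwise]
  simp only [sum_sub_distrib, sum_const, card_univ, smul_eq_mul, mul_one, nsmul_eq_mul]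
  ring

theorem caseD (ha : ∀ i, 1 ≤ a i) (hcop : Pairwise fun i j => Nat.Coprime (a i) (a j))
    (hd : ∀ j, 1 ≤ d j) (hJ : ∀ i, a i ∣ d (J i)) (T : Finset V) (hT : 2 ≤ T.card)
    (D c : V → ℕ) (hD : ∀ i ∈ T, D i * a i = d (J i)) (hc1 : ∀ i ∈ T, 1 ≤ c i)
    (hcD : ∀ i ∈ T, c i ≤ D i) (e : ℤ) (he : ∑ i ∈ T, B a d J (J i) ≤ e) :
    (∃ p ∈ T, ∃ q ∈ T, p ≠ q ∧ ((a p : ℤ) - 1) * ((a q : ℤ) - 1) ≤ e) ∨
      ∃ b ∈ T, ∑ i ∈ T.erase b, ((c i : ℤ) - 1) * a i < e + a b := by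
  classical
  obtain ⟨σ, hσ⟩ : ∃ σ : V → ℤ, σ = fun i => ∑ l ∈ (G J (J i)).erase i, ((a l : ℤ) - 1) :=
    ⟨_, rfl⟩
  have hiG : ∀ i, i ∈ G J (J i) := fun i => by rw [G, mem_filter]; exact ⟨mem_univ _, rfl⟩
  have hσ0 : ∀ i, 0 ≤ σ i := fun i => by
    rw [hσ]
    exact sum_nonneg fun l _ => by have := ha l; omega
  have hB : ∀ i ∈ T, B a d J (J i) = (D i : ℤ) * a i - a i - σ i := by
    intro i hi
    unfold B
    rw [← add_sum_erase _ _ (hiG i), ← hD i hi, hσ]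
    push_cast
    ring
  have hσD : ∀ i ∈ T, σ i + 1 ≤ D i := by
    intro i hi
    have h1 : ∏ l ∈ G J (J i), a l ∣ d (J i) := prod_dvd hcop _ fun l hl => by
      rw [G, mem_filter] at hl
      rw [← hl.2]
      exact hJ l
    rw [← mul_prod_erase _ _ (hiG i), ← hD i hi, mul_comm (D i)] at h1
    have h2 := Nat.dvd_of_mul_dvd_mul_left (by have := ha i; omega) h1
    have hDi : 0 < D i := by have := hc1 i hi; have := hcD i hi; omega
    have h3 := Nat.le_of_dvd hDi h2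
    have h4 := prod_geZ ha ((G J (J i)).erase i)
    rw [hσ]
    show ∑ l ∈ (G J (J i)).erase i, ((a l : ℤ) - 1) + 1 ≤ D i
    have h5 : ((∏ l ∈ (G J (J i)).erase i, a l : ℕ) : ℤ) ≤ D i := by exact_mod_cast h3
    linarith
  have haZ : ∀ i, (1 : ℤ) ≤ a i := fun i => by exact_mod_cast ha i
  have hTne : T.Nonempty := card_pos.1 (by omega)
  obtain ⟨p, hp, hpmin⟩ := exists_min_image T a hTne
  obtain ⟨q, hq, hqmin⟩ := exists_min_image (T.erase p) a (by
    rw [← card_pos, card_erase_of_mem hp]; omega)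
  obtain ⟨H, hH⟩ : ∃ H, H = T.filter fun i => 0 < σ i := ⟨_, rfl⟩
  have hHT : H ⊆ T := by rw [hH]; exact filter_subset _ _
  by_cases hh : a p ≤ H.card
  · left
    refine ⟨p, hp, q, (mem_erase.1 hq).2, fun h => (mem_erase.1 hq).1 h.symm, ?_⟩
    have h1 : ∀ i ∈ H, (a i : ℤ) - 1 ≤ B a d J (J i) := by
      intro i hi
      rw [hH, mem_filter] at hi
      rw [hB i hi.1]
      have h2 := hσD i hi.1
      have h3 := haZ i
      have h4 : (2 : ℤ) ≤ D i := by have := hi.2; omega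
      nlinarith
    have h2 : ∑ i ∈ H, ((a i : ℤ) - 1) ≤ ∑ i ∈ H, B a d J (J i) := sum_le_sum h1
    have h3 : ∑ i ∈ H, B a d J (J i) ≤ ∑ i ∈ T, B a d J (J i) :=
      sum_le_sum_of_subset_of_nonneg hHT fun i _ _ => B_nonneg ha hcop hd hJ _
    have h4 : ∑ i ∈ H.erase p, ((a i : ℤ) - 1) ≤ ∑ i ∈ H, ((a i : ℤ) - 1) :=
      sum_le_sum_of_subset_of_nonneg (erase_subset _ _) fun i _ _ => by have := haZ i; omega
    have h5 : ((H.erase p).card : ℤ) * ((a q : ℤ) - 1) ≤ ∑ i ∈ H.erase p, ((a i : ℤ) - 1) := by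
      rw [← nsmul_eq_mul]
      refine card_nsmul_le_sum _ _ _ fun i hi => ?_
      have h6 := hqmin i (mem_erase.2 ⟨(mem_erase.1 hi).1, hHT (mem_erase.1 hi).2⟩)
      have : (a q : ℤ) ≤ a i := by exact_mod_cast h6
      linarith
    have h6 : (a p : ℤ) - 1 ≤ ((H.erase p).card : ℤ) := by
      have := pred_card_le_card_erase (s := H) (a := p)
      omega
    have h7 := haZ q
    nlinarith
  · right
    obtain ⟨b, hb, hbmax⟩ := exists_max_image T (fun i => c i * a i) hTne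
    refine ⟨b, hb, ?_⟩
    obtain ⟨M, hM⟩ : ∃ M : ℤ, M = (c b : ℤ) * a b := ⟨_, rfl⟩
    have hM1 : 1 ≤ M := by
      have h1 : (1 : ℤ) ≤ c b := by exact_mod_cast hc1 b hb
      have h2 := haZ b
      rw [hM]; nlinarith
    obtain ⟨δ, hδ⟩ : ∃ δ : V → ℤ, δ = fun i => σ i - ((D i : ℤ) - c i) * a i := ⟨_, rfl⟩
    have hδB : ∀ i ∈ T, ((c i : ℤ) - 1) * a i = B a d J (J i) + δ i := by
      intro i hi
      rw [hB i hi, hδ]
      ring
    have hap : ∀ i ∈ T, (a p : ℤ) * δ i ≤ if i ∈ H then M - 1 else 0 := by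
      intro i hi
      have hcDi : (c i : ℤ) ≤ D i := by exact_mod_cast hcD i hi
      have hai := haZ i
      have hapi : (a p : ℤ) ≤ a i := by exact_mod_cast hpmin i hi
      have hap1 := haZ p
      have h0 : 0 ≤ ((D i : ℤ) - c i) * a i := mul_nonneg (by linarith) (by linarith)
      by_cases hiH : i ∈ H
      · rw [if_pos hiH]
        by_cases hδi : δ i ≤ 0
        · have : (a p : ℤ) * δ i ≤ 0 := mul_nonpos_of_nonneg_of_nonpos (by linarith) hδi
          linarith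
        · push Not at hδi
          have h1 : (a p : ℤ) * δ i ≤ a i * δ i := mul_le_mul_of_nonneg_right hapi hδi.le
          have h2 : (c i : ℤ) * a i ≤ M := by
            rw [hM]; exact_mod_cast hbmax i hi
          have h3 := hσD i hi
          have h4 : δ i ≤ (D i : ℤ) - 1 - ((D i : ℤ) - c i) * a i := by
            rw [hδ]
            show σ i - ((D i : ℤ) - c i) * a i ≤ _
            linarith
          have h5 : (a i : ℤ) * δ i ≤ a i * ((D i : ℤ) - 1 - ((D i : ℤ) - c i) * a i) :=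
            mul_le_mul_of_nonneg_left h4 (by linarith)
          have h6 : ((D i : ℤ) - c i) * a i ≤ ((D i : ℤ) - c i) * a i * a i := by
            nlinarith
          nlinarith
      · rw [if_neg hiH]
        have h1 : σ i = 0 := by
          rw [hH, mem_filter] at hiH
          push Not at hiH
          exact le_antisymm (hiH hi) (hσ0 i)
        have h2 : δ i ≤ 0 := by
          rw [hδ]
          show σ i - ((D i : ℤ) - c i) * a i ≤ 0
          rw [h1]; linarith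
        exact mul_nonpos_of_nonneg_of_nonpos (by linarith) h2
    have h1 : (a p : ℤ) * ∑ i ∈ T, δ i ≤ (H.card : ℤ) * (M - 1) := by
      rw [mul_sum]
      refine (sum_le_sum hap).trans (le_of_eq ?_)
      rw [← sum_filter, filter_mem_eq_inter, inter_eq_right.2 hHT, sum_const, nsmul_eq_mul]
    have h2 : ∑ i ∈ T, δ i < M := by
      have h3 : (H.card : ℤ) ≤ (a p : ℤ) - 1 := by push Not at hh; omega
      have hap1 := haZ p
      by_contra hcon
      push Not at hcon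
      nlinarith
    have h3 : ∑ i ∈ T, ((c i : ℤ) - 1) * a i = ∑ i ∈ T, B a d J (J i) + ∑ i ∈ T, δ i := by
      rw [← sum_add_distrib]
      exact sum_congr rfl hδB
    have h4 := add_sum_erase T (fun i => ((c i : ℤ) - 1) * a i) hb
    have h5 : ((c b : ℤ) - 1) * a b = M - a b := by rw [hM]; ring
    linarith

end Pool.Agent.U479.FJ
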