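import Pool.Agent.U479.FJ.Semi

set_option autoImplicit false

/-! Monomials of weighted homogeneous polynomials; pairwise coprime weights. -/

namespace Pool.Agent.U479.FJ

open Finset MvPolynomial

variable {V : Type} [Fintype V] [DecidableEq V] {F : Type} [Field F]

theorem weight_eq (a : V → ℕ) (m : V →₀ ℕ) : Finsupp.weight a m = ∑ i, m i * a i := by
  rw [Finsupp.weight_apply, Finsupp.sum_fintype _ _ (fun _ => by simp)]
  simp

theorem coord {a : V → ℕ} {d : ℕ} {f : MvPolynomial V F} (hf : IsWeightedHomogeneous a f d)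
    {i : V} (h : eval (Pi.single i 1) f ≠ 0) :
    ∃ D : ℕ, D * a i = d ∧ coeff (Finsupp.single i D) f ≠ 0 := by
  rw [eval_eq'] at h
  obtain ⟨m, -, hm⟩ := exists_ne_zero_of_sum_ne_zero h
  have h1 : coeff m f ≠ 0 := left_ne_zero_of_mul hm
  have h2 : ∏ l, (Pi.single i 1 : V → F) l ^ m l ≠ 0 := right_ne_zero_of_mul hm
  have h3 : m = Finsupp.single i (m i) := by
    ext l
    by_cases hl : l = i
    · subst hl; simp
    · rw [Finsupp.single_apply, if_neg (Ne.symm hl)]
      have h4 := (Finset.prod_ne_zero_iff.1 h2) l (mem_univ l)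
      by_contra h5
      apply h4
      rw [Pi.single_eq_of_ne hl, zero_pow h5]
  refine ⟨m i, ?_, by rw [← h3]; exact h1⟩
  have h6 := hf h1
  rw [weight_eq, sum_eq_single i] at h6
  · exact h6
  · intro l _ hl
    rw [h3, Finsupp.single_apply, if_neg (Ne.symm hl), zero_mul]
  · intro h; exact absurd (mem_univ i) h

theorem other {f : MvPolynomial V F} {x : V → F} {i : V} {D : ℕ} (h0 : eval x f = 0)
    (hc : coeff (Finsupp.single i D) f ≠ 0) (hx : x i ≠ 0) :
    ∃ m : V →₀ ℕ, coeff m f ≠ 0 ∧ m ≠ Finsupp.single i D ∧ ∀ l, m l ≠ 0 → x l ≠ 0 := by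
  by_contra hcon
  push Not at hcon
  rw [eval_eq', sum_eq_single (Finsupp.single i D)] at h0
  · have h1 : ∏ l, x l ^ (Finsupp.single i D) l = x i ^ D := by
      rw [prod_eq_single i]
      · simp
      · intro l _ hl
        rw [Finsupp.single_apply, if_neg (Ne.symm hl), pow_zero]
      · intro h; exact absurd (mem_univ i) h
    rw [h1] at h0
    exact mul_ne_zero hc (pow_ne_zero _ hx) h0
  · intro m hm hne
    obtain ⟨l, hl, hxl⟩ := hcon m (mem_support_iff.1 hm) hne
    rw [prod_eq_zero (mem_univ l) (by rw [hxl, zero_pow hl]), mul_zero]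
  · intro h
    rw [notMem_support_iff.1 h, zero_mul]

theorem prod_dvd {a : V → ℕ} (hcop : Pairwise fun i j => Nat.Coprime (a i) (a j)) {d : ℕ}
    (s : Finset V) (h : ∀ i ∈ s, a i ∣ d) : ∏ i ∈ s, a i ∣ d := by
  induction s using Finset.induction_on with
  | empty => simp
  | insert i s hi ih =>
    rw [prod_insert hi]
    refine Nat.Coprime.mul_dvd_of_dvd_of_dvd ?_ (h i (mem_insert_self i s))
      (ih fun j hj => h j (mem_insert_of_mem hj))
    exact Nat.Coprime.prod_right fun j hj => hcop (fun h => hi (h ▸ hj))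

theorem prod_ge {a : V → ℕ} (ha : ∀ i, 1 ≤ a i) (s : Finset V) :
    1 + ∑ i ∈ s, (a i - 1) ≤ ∏ i ∈ s, a i := by
  induction s using Finset.induction_on with
  | empty => simp
  | insert i s hi ih =>
    rw [prod_insert hi, sum_insert hi]
    have h1 := ha i
    obtain ⟨t, ht⟩ : ∃ t, a i = t + 1 := ⟨a i - 1, by omega⟩
    rw [ht, Nat.add_sub_cancel]
    have h2 : 1 ≤ ∏ i ∈ s, a i := by omega
    nlinarith

/-- two coprime numbers -/
theorem pair_mem {p q e : ℕ} (hp : 1 ≤ p) (hq : 1 ≤ q) (h : Nat.Coprime p q)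
    (he : (p - 1) * (q - 1) ≤ e) : ∃ u v : ℕ, u * p + v * q = e := by
  haveI : NeZero q := ⟨by omega⟩
  obtain ⟨u, hu, huq⟩ : ∃ u : ℕ, u * p ≡ e [MOD q] ∧ u < q := by
    refine ⟨((((ZMod.unitOfCoprime p h)⁻¹ : (ZMod q)ˣ) : ZMod q) * e).val, ?_, ZMod.val_lt _⟩
    rw [← ZMod.natCast_eq_natCast_iff]
    push_cast
    rw [ZMod.natCast_zmod_val, ← ZMod.coe_unitOfCoprime p h, mul_right_comm,
      Units.inv_mul, one_mul]
  have hle : u * p ≤ e := by
    by_contra hcon
    push Not at hcon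
    have h1 : q ∣ u * p - e := (Nat.modEq_iff_dvd' hcon.le).1 hu.symm
    have h2 := Nat.le_of_dvd (by omega) h1
    have h3 : u * p ≤ (q - 1) * p := Nat.mul_le_mul_right _ (by omega)
    obtain ⟨p', rfl⟩ : ∃ p', p = p' + 1 := ⟨p - 1, by omega⟩
    obtain ⟨q', rfl⟩ : ∃ q', q = q' + 1 := ⟨q - 1, by omega⟩
    simp only [Nat.add_sub_cancel] at he h3
    have h4 : q' * (p' + 1) = p' * q' + q' := by ring
    omega
  obtain ⟨v, hv⟩ := (Nat.modEq_iff_dvd' hle).1 hu
  exact ⟨u, v, by rw [mul_comm v q]; omega⟩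

end Pool.Agent.U479.FJ
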