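import Mathlib

set_option autoImplicit false

/-! A bound of Frobenius type for semigroups with an irreducible system of relations. -/

namespace Pool.Agent.U479.FJ

open Finset

variable {V : Type} [DecidableEq V]

/-- `U` is closed under the relations `r` -/
def Closed (r : V → V → ℕ) (U : Finset V) : Prop := ∀ i ∈ U, ∀ l, r i l ≠ 0 → l ∈ U

/-- a minimal nonempty closed subset -/
theorem exists_minimal_closed (r : V → V → ℕ) (S : Finset V) (hS : S.Nonempty)
    (hc : Closed r S) :
    ∃ T ⊆ S, T.Nonempty ∧ Closed r T ∧ ∀ U ⊆ T, U.Nonempty → Closed r U → U = T := by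
  classical
  obtain ⟨T, hT, hmin⟩ := Finset.exists_min_image
    (S.powerset.filter fun U => U.Nonempty ∧ Closed r U) (fun U => U.card)
    ⟨S, by simp [hS, hc]⟩
  rw [mem_filter, mem_powerset] at hT
  refine ⟨T, hT.1, hT.2.1, hT.2.2, fun U hU hne hcl => ?_⟩
  have := hmin U (by rw [mem_filter, mem_powerset]; exact ⟨hU.trans hT.1, hne, hcl⟩)
  exact eq_of_subset_of_card_le hU this

/-- the potential -/
theorem exists_potential (a c : V → ℕ) (r : V → V → ℕ) (T : Finset V) (ha : ∀ i, 1 ≤ a i)
    (hmin : ∀ U ⊆ T, U.Nonempty → Closed r U → U = T) (hcl : Closed r T)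
    {b : V} (hb : b ∈ T) :
    ∃ W : V → ℕ, (∀ i ∈ T, 1 ≤ W i ∧ W i ≤ W b) ∧
      ∀ i ∈ T, i ≠ b → W i * (c i * a i) < ∑ l ∈ T, r i l * a l * W l := by
  classical
  have key : ∀ n : ℕ, n + 1 ≤ T.card → ∃ A ⊆ T, A.card = n + 1 ∧ b ∈ A ∧ ∃ W : V → ℕ,
      (∀ i ∈ A, 1 ≤ W i ∧ W i ≤ W b) ∧ (∀ i, i ∉ A → W i = 0) ∧
      ∀ i ∈ A, i ≠ b → W i * (c i * a i) < ∑ l ∈ T, r i l * a l * W l := by
    intro n
    induction n with
    | zero =>
      intro _
      refine ⟨{b}, by simpa using hb, by simp, by simp, fun i => if i = b then 1 else 0, ?_, ?_, ?_⟩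
      · intro i hi
        rw [mem_singleton] at hi
        subst hi
        simp
      · intro i hi
        rw [mem_singleton] at hi
        simp [hi]
      · intro i hi hib
        rw [mem_singleton] at hi
        exact absurd hi hib
    | succ n ih =>
      intro hn
      obtain ⟨A, hAT, hAc, hbA, W, h1, h2, h3⟩ := ih (by omega)
      have hUne : (T \ A).Nonempty := by
        rw [← card_pos, card_sdiff_of_subset hAT]
        omega
      have hUT : T \ A ≠ T := by
        intro h
        have : b ∈ T \ A := by rw [h]; exact hb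
        exact (mem_sdiff.1 this).2 hbA
      have hncl : ¬ Closed r (T \ A) := fun h => hUT (hmin _ sdiff_subset hUne h)
      unfold Closed at hncl
      push Not at hncl
      obtain ⟨i, hi, l, hrl, hl⟩ := hncl
      rw [mem_sdiff] at hi
      have hlT : l ∈ T := hcl i hi.1 l hrl
      have hlA : l ∈ A := by
        by_contra h
        exact hl (mem_sdiff.2 ⟨hlT, h⟩)
      have hli : l ≠ i := fun h => hi.2 (h ▸ hlA)
      obtain ⟨Q, hQ⟩ : ∃ Q, Q = c i * a i + 1 := ⟨_, rfl⟩
      have hbi : b ≠ i := fun h => hi.2 (h ▸ hbA)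
      refine ⟨insert i A, insert_subset hi.1 hAT, by rw [card_insert_of_notMem hi.2, hAc],
        mem_insert_of_mem hbA, fun x => if x = i then 1 else Q * W x, ?_, ?_, ?_⟩
      · intro x hx
        beta_reduce
        rw [if_neg hbi]
        rcases mem_insert.1 hx with rfl | hxA
        · rw [if_pos rfl]
          refine ⟨le_rfl, ?_⟩
          have := (h1 b hbA).1
          nlinarith
        · have hxi : x ≠ i := fun h => hi.2 (h ▸ hxA)
          rw [if_neg hxi]
          refine ⟨?_, Nat.mul_le_mul_left _ (h1 x hxA).2⟩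
          have := (h1 x hxA).1
          nlinarith
      · intro x hx
        rw [mem_insert] at hx
        push Not at hx
        beta_reduce
        rw [if_neg hx.1, h2 x hx.2, mul_zero]
      · intro x hx hxb
        beta_reduce
        rcases mem_insert.1 hx with rfl | hxA
        · rw [if_pos rfl, one_mul]
          have h4 : r x l * a l * (if l = x then 1 else Q * W l) ≤
              ∑ l ∈ T, r x l * a l * (if l = x then 1 else Q * W l) :=
            single_le_sum (f := fun l => r x l * a l * (if l = x then 1 else Q * W l))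
              (fun _ _ => Nat.zero_le _) hlT
          rw [if_neg hli] at h4
          have h5 : 1 ≤ r x l * a l := Nat.one_le_iff_ne_zero.2
            (Nat.mul_ne_zero hrl (by have := ha l; omega))
          have h6 : 1 ≤ W l := (h1 l hlA).1
          have h7 : Q ≤ r x l * a l * (Q * W l) := by
            calc Q = 1 * (Q * 1) := by ring
              _ ≤ r x l * a l * (Q * W l) := Nat.mul_le_mul h5 (Nat.mul_le_mul_left _ h6)
          omega
        · have hxi : x ≠ i := fun h => hi.2 (h ▸ hxA)
          rw [if_neg hxi]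
          have h4 := h3 x hxA hxb
          calc Q * W x * (c x * a x) = Q * (W x * (c x * a x)) := by ring
            _ < Q * ∑ l ∈ T, r x l * a l * W l := Nat.mul_lt_mul_of_pos_left h4 (by omega)
            _ = ∑ l ∈ T, r x l * a l * (Q * W l) := by
              rw [mul_sum]
              exact sum_congr rfl fun _ _ => by ring
            _ ≤ ∑ l ∈ T, r x l * a l * (if l = i then 1 else Q * W l) := by
              refine sum_le_sum fun l _ => Nat.mul_le_mul_left _ ?_
              by_cases h : l = i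
              · rw [if_pos h, h, h2 i hi.2, mul_zero]
                exact Nat.zero_le _
              · rw [if_neg h]
  obtain ⟨A, hAT, hAc, hbA, W, h1, -, h3⟩ := key (T.card - 1) (by
    have := card_pos.2 ⟨b, hb⟩; omega)
  have hA : A = T := eq_of_subset_of_card_le hAT (by
    have := card_pos.2 ⟨b, hb⟩; omega)
  subst hA
  exact ⟨W, h1, h3⟩

/-- **The Frobenius bound.** -/
theorem mem_semigroup (a c : V → ℕ) (r : V → V → ℕ) (T : Finset V) (ha : ∀ i, 1 ≤ a i)
    (hmin : ∀ U ⊆ T, U.Nonempty → Closed r U → U = T) (hcl : Closed r T)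
    (hrel : ∀ i ∈ T, c i * a i = ∑ l ∈ T, r i l * a l) (hrii : ∀ i, r i i = 0)
    {b : V} (hb : b ∈ T) {l₀ : V} (hl₀ : l₀ ∈ T) (hl₀b : l₀ ≠ b)
    (hcop : Nat.Coprime (a l₀) (a b)) (hc : ∀ i ∈ T, 1 ≤ c i) (z : ℕ)
    (hz : ∑ i ∈ T.erase b, (c i - 1) * a i < z + a b) :
    ∃ y : V → ℕ, (∀ i, i ∉ T → y i = 0) ∧ ∑ i ∈ T, y i * a i = z := by
  classical
  obtain ⟨W, hW1, hW2⟩ := exists_potential a c r T ha hmin hcl hb
  -- a minimal representation modulo `a b`
  have hex : ∃ n : ℕ, ∃ y : V → ℕ, (∑ i ∈ T.erase b, y i * a i ≡ z [MOD a b]) ∧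
      ∑ i ∈ T.erase b, (W b - W i) * a i * y i = n := by
    obtain ⟨k, hk⟩ : ∃ k : ℕ, k * a l₀ ≡ z [MOD a b] := by
      haveI : NeZero (a b) := ⟨by have := ha b; omega⟩
      refine ⟨((((ZMod.unitOfCoprime (a l₀) hcop)⁻¹ : (ZMod (a b))ˣ) : ZMod (a b)) * z).val, ?_⟩
      rw [← ZMod.natCast_eq_natCast_iff]
      push_cast
      rw [ZMod.natCast_zmod_val, ← ZMod.coe_unitOfCoprime (a l₀) hcop, mul_right_comm,
        Units.inv_mul, one_mul]
    refine ⟨_, fun i => if i = l₀ then k else 0, ?_, rfl⟩
    have : ∑ i ∈ T.erase b, (if i = l₀ then k else 0) * a i = k * a l₀ := by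
      rw [sum_eq_single l₀]
      · simp
      · intro i _ hi; simp [hi]
      · intro h; exact absurd (mem_erase.2 ⟨hl₀b, hl₀⟩) h
    rw [this]
    exact hk
  obtain ⟨y, hy, hΦ⟩ := Nat.find_spec hex
  have hmin' : ∀ y' : V → ℕ, (∑ i ∈ T.erase b, y' i * a i ≡ z [MOD a b]) →
      ∑ i ∈ T.erase b, (W b - W i) * a i * y i ≤ ∑ i ∈ T.erase b, (W b - W i) * a i * y' i := by
    intro y' hy'
    rw [hΦ]
    exact Nat.find_min' hex ⟨y', hy', rfl⟩
  have hlt : ∀ i ∈ T.erase b, y i < c i := by
    intro i hi
    by_contra hcon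
    push Not at hcon
    obtain ⟨hib, hiT⟩ := mem_erase.1 hi
    obtain ⟨y', hy'⟩ : ∃ y' : V → ℕ, y' = fun l => (y l + r i l) - if l = i then c i else 0 := ⟨_, rfl⟩
    have hyl : ∀ l, y' l + (if l = i then c i else 0) = y l + r i l := by
      intro l
      rw [hy']
      show (y l + r i l) - (if l = i then c i else 0) + (if l = i then c i else 0) = y l + r i l
      by_cases h : l = i
      · subst h
        rw [if_pos rfl]
        omega
      · rw [if_neg h]; omega
    have hsum : ∀ g : V → ℕ, ∑ l ∈ T.erase b, y' l * g l + c i * g i =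
        ∑ l ∈ T.erase b, y l * g l + ∑ l ∈ T.erase b, r i l * g l := by
      intro g
      have h1 : c i * g i = ∑ l ∈ T.erase b, (if l = i then c i else 0) * g l := by
        rw [sum_eq_single i]
        · simp
        · intro l _ hl; simp [hl]
        · intro h; exact absurd hi h
      rw [h1, ← sum_add_distrib, ← sum_add_distrib]
      refine sum_congr rfl fun l _ => ?_
      rw [← add_mul, ← add_mul, hyl]
    have hsplit : ∀ g : V → ℕ, ∑ l ∈ T, g l = g b + ∑ l ∈ T.erase b, g l := fun g =>
      (add_sum_erase T g hb).symm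
    have hr := hrel i hiT
    rw [hsplit] at hr
    -- congruence
    have h1 := hsum a
    have h2 : ∑ l ∈ T.erase b, y' l * a l + r i b * a b = ∑ l ∈ T.erase b, y l * a l := by omega
    have h3 : ∑ l ∈ T.erase b, y' l * a l ≡ z [MOD a b] := by
      refine Nat.ModEq.trans ?_ hy
      rw [← h2]
      exact (Nat.modEq_iff_dvd' (by omega)).2 (by
        rw [Nat.add_sub_cancel_left]; exact Dvd.intro_left _ rfl)
    -- potential
    have h4 := hmin' y' h3
    have h5 := hsum (fun l => (W b - W l) * a l)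
    have h6 := hW2 i hiT hib
    rw [hsplit] at h6
    have h7 : ∑ l ∈ T.erase b, r i l * ((W b - W l) * a l) + ∑ l ∈ T.erase b, r i l * a l * W l =
        W b * ∑ l ∈ T.erase b, r i l * a l := by
      rw [← sum_add_distrib, mul_sum]
      refine sum_congr rfl fun l hl => ?_
      have := (hW1 l (mem_erase.1 hl).2).2
      obtain ⟨t, ht⟩ := Nat.exists_eq_add_of_le this
      rw [ht, Nat.add_sub_cancel_left]
      ring
    have h8 : c i * ((W b - W i) * a i) + W i * (c i * a i) = W b * (c i * a i) := by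
      have := (hW1 i hiT).2
      obtain ⟨t, ht⟩ := Nat.exists_eq_add_of_le this
      rw [ht, Nat.add_sub_cancel_left]
      ring
    have h9 : ∑ l ∈ T.erase b, (W b - W l) * a l * y l = ∑ l ∈ T.erase b, y l * ((W b - W l) * a l) :=
      sum_congr rfl fun _ _ => mul_comm _ _
    have h10 : ∑ l ∈ T.erase b, (W b - W l) * a l * y' l =
        ∑ l ∈ T.erase b, y' l * ((W b - W l) * a l) := sum_congr rfl fun _ _ => mul_comm _ _
    rw [h9, h10] at h4
    have h11 : W b * (c i * a i) = W b * (r i b * a b) + W b * ∑ l ∈ T.erase b, r i l * a l := by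
      rw [hr, mul_add]
    have h12 : r i b * a b * W b = W b * (r i b * a b) := mul_comm _ _
    omega
  have hle : ∑ i ∈ T.erase b, y i * a i ≤ ∑ i ∈ T.erase b, (c i - 1) * a i :=
    sum_le_sum fun i hi => Nat.mul_le_mul_right _ (by have := hlt i hi; omega)
  obtain ⟨s, hs⟩ : ∃ s, s = ∑ i ∈ T.erase b, y i * a i := ⟨_, rfl⟩
  rw [← hs] at hle hy
  have hsz : s ≤ z := by
    by_contra hcon
    push Not at hcon
    have h1 : a b ∣ s - z := (Nat.modEq_iff_dvd' hcon.le).1 hy.symm
    have h2 := Nat.le_of_dvd (by omega) h1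
    omega
  obtain ⟨k, hk⟩ := (Nat.modEq_iff_dvd' hsz).1 hy
  refine ⟨fun i => if i = b then k else if i ∈ T then y i else 0, fun i hi => ?_, ?_⟩
  · have : i ≠ b := fun h => hi (h ▸ hb)
    simp [this, hi]
  · rw [← add_sum_erase T _ hb]
    beta_reduce
    have h1 : ∑ i ∈ T.erase b, (if i = b then k else if i ∈ T then y i else 0) * a i = s := by
      rw [hs]
      refine sum_congr rfl fun i hi => ?_
      rw [if_neg (mem_erase.1 hi).1, if_pos (mem_erase.1 hi).2]
    rw [h1, if_pos rfl, mul_comm]
    omega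

end Pool.Agent.U479.FJ
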